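import Pool.Agent.Helper13.ZL.Stmts

/-!
# Module ZERO: a function which is small at many places vanishes at all places
-/

set_option autoImplicit false

open scoped Classical

namespace Pool.Agent.Helper13.ZL

open Pool.Agent.Helper14.BSC

/-- The primes are not covered by two sets with summable reciprocals. -/
theorem zero_primes (A B : Set ℕ) (hA : Summable (fun l : A => 1 / ((l : ℕ) : ℝ)))
    (hB : Summable (fun l : B => 1 / ((l : ℕ) : ℝ))) (hcov : ∀ l : ℕ, l.Prime → l ∈ A ∨ l ∈ B) :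
    False := by
  have hA' : Summable (Set.indicator A (fun n : ℕ => 1 / (n : ℝ))) :=
    summable_subtype_iff_indicator.1 hA
  have hB' : Summable (Set.indicator B (fun n : ℕ => 1 / (n : ℝ))) :=
    summable_subtype_iff_indicator.1 hB
  have hpos : ∀ (s : Set ℕ) (n : ℕ), 0 ≤ Set.indicator s (fun n : ℕ => 1 / (n : ℝ)) n :=
    fun s n => Set.indicator_nonneg (fun m _ => by positivity) n
  apply not_summable_one_div_on_primes
  refine Summable.of_nonneg_of_le (fun n => hpos _ n) ?_ (hA'.add hB')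
  intro n
  by_cases hn : n.Prime
  · rw [Set.indicator_of_mem (show n ∈ {p : ℕ | p.Prime} from hn)]
    rcases hcov n hn with h | h
    · rw [Set.indicator_of_mem h]
      have := hpos B n
      linarith
    · rw [Set.indicator_of_mem h]
      have := hpos A n
      linarith
  · rw [Set.indicator_of_notMem (show n ∉ {p : ℕ | p.Prime} from hn)]
    exact add_nonneg (hpos A n) (hpos B n)

section

variable {k Ω : Type} [Field k] [NumberField k] [Field Ω] [Algebra k Ω] [IsAlgClosed Ω]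

omit [NumberField k] [IsAlgClosed Ω] in
theorem zero_memFF (c : k) : algebraMap k (Acl k Ω) c ∈ FF (∅ : Set (Acl k Ω)) :=
  (FF (∅ : Set (Acl k Ω))).algebraMap_mem c

omit [NumberField k] [IsAlgClosed Ω] in
theorem zero_inc (D : Sec k Ω) (c : k) :
    inc D ∅ ⟨algebraMap k (Acl k Ω) c, zero_memFF c⟩ = algebraMap k (LL D) c :=
  Subtype.ext rfl

/-- Kummer classes of elements of the fixed field. -/
theorem zero_mk (hK : Pool.Agent.Helper14.BSC.ST_KUM) (hB : ST_BOT) (D : Sec k Ω) (x : LL D)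
    (hx : x ≠ 0) (n : ℕ) (hn : 0 < n) :
    ∃ (b : k) (g : LL D), b ≠ 0 ∧ g ≠ 0 ∧ x = algebraMap k (LL D) b * g ^ n := by
  obtain ⟨c, hc, y, hy, h⟩ := hK k Ω D ∅ n hn x hx
  obtain ⟨b, hb⟩ := hB k Ω (c : Acl k Ω) c.2
  have hc' : c = ⟨algebraMap k (Acl k Ω) b, zero_memFF b⟩ := Subtype.ext hb
  refine ⟨b, y, ?_, hy, ?_⟩
  · intro hb0
    apply hc
    rw [hc']
    apply Subtype.ext
    rw [hb0]
    exact map_zero _
  · rw [h, hc', zero_inc]

theorem zero_root (hR : ST_ROOT) (hB : ST_BOT) (D : Sec k Ω) (y : LL D) (c : k) (n : ℕ)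
    (hn : 0 < n) (h : y ^ n = algebraMap k (LL D) c) : ∃ d : k, y = algebraMap k (LL D) d := by
  obtain ⟨d, hd⟩ := hR k Ω D ∅ n hn y ⟨algebraMap k (Acl k Ω) c, zero_memFF c⟩
    (by rw [h, zero_inc])
  obtain ⟨b, hb⟩ := hB k Ω (d : Acl k Ω) d.2
  have hd' : d = ⟨algebraMap k (Acl k Ω) b, zero_memFF b⟩ := Subtype.ext hb
  exact ⟨b, by rw [hd, hd', zero_inc]⟩

/-- Two representatives of a class differ by a power. -/
theorem zero_ratio (hR : ST_ROOT) (hB : ST_BOT) (D : Sec k Ω) (b b' : k) (g g' : LL D) (n : ℕ)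
    (hn : 0 < n) (hb : b ≠ 0) (hg' : g' ≠ 0)
    (h : algebraMap k (LL D) b * g ^ n = algebraMap k (LL D) b' * g' ^ n) :
    ∃ t : k, b' = b * t ^ n := by
  have hb2 : algebraMap k (LL D) b ≠ 0 := (map_ne_zero _).2 hb
  have h1 : (g / g') ^ n = algebraMap k (LL D) (b' / b) := by
    rw [div_pow, map_div₀, div_eq_div_iff (pow_ne_zero _ hg') hb2, mul_comm (g ^ n)]
    exact h
  obtain ⟨t, ht⟩ := zero_root hR hB D (g / g') (b' / b) n hn h1
  refine ⟨t, ?_⟩
  rw [ht, ← map_pow] at h1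
  have h2 : t ^ n = b' / b := (algebraMap k (LL D)).injective h1
  rw [h2]
  field_simp

omit [NumberField k] [IsAlgClosed Ω] in
theorem zero_unit [NumberField k] {v : Pl k} {p : ℕ} [Fact p.Prime] {σ : k →+* ℂ_[p]}
    (h : OverPl v σ) {x : k} (hx : v.valuation k x = 1) : ‖σ x‖ = 1 := by
  have h1 : ¬ ‖σ x‖ < 1 := by
    rw [← h x, hx]
    exact lt_irrefl _
  have h2 : ¬ ‖σ x⁻¹‖ < 1 := by
    rw [← h x⁻¹, map_inv₀, hx, inv_one]
    exact lt_irrefl _
  rw [map_inv₀, norm_inv] at h2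
  have h3 : ‖σ x‖ ≤ 1 := by
    by_contra h4
    exact h2 (inv_lt_one_of_one_lt₀ (not_le.1 h4))
  exact le_antisymm h3 (not_lt.1 h1)

theorem zero_fin (c : k) (hc : c ≠ 0) : {v : Pl k | v.valuation k c ≠ 1}.Finite := by
  refine ((IsDedekindDomain.HeightOneSpectrum.Support.finite (NumberField.RingOfIntegers k)
    c).union (IsDedekindDomain.HeightOneSpectrum.Support.finite (NumberField.RingOfIntegers k)
    c⁻¹)).subset ?_
  intro v hv
  have hv0 : v.valuation k c ≠ 0 := (Valuation.ne_zero_iff _).2 hc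
  rcases lt_or_gt_of_ne (show v.valuation k c ≠ 1 from hv) with h | h
  · right
    show 1 < v.valuation k c⁻¹
    rw [map_inv₀]
    exact (one_lt_inv₀ (zero_lt_iff.2 hv0)).2 h
  · left
    exact h

/-- The function `1 - f / c`. -/
noncomputable def zero_h {k Ω : Type} [Field k] [Field Ω] [Algebra k Ω] (D : Sec k Ω) (f : LL D) (c : k) : LL D :=
  1 - f * algebraMap k (LL D) c⁻¹

omit [NumberField k] [IsAlgClosed Ω] in
theorem zero_phi {D : Sec k Ω} {p : ℕ} [Fact p.Prime] {σ : k →+* ℂ_[p]} (P : Place D p σ)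
    {f : LL D} (hf : f ∈ P.C) (c : k) :
    ∃ h : zero_h D f c ∈ P.C, P.φ ⟨zero_h D f c, h⟩ = 1 - P.φ ⟨f, hf⟩ * σ c⁻¹ := by
  obtain ⟨h1, h2⟩ := P.base c⁻¹
  refine ⟨sub_mem (one_mem _) (mul_mem hf h1), ?_⟩
  rw [← h2, ← map_one P.φ, ← map_mul, ← map_sub]
  rfl

omit [IsAlgClosed Ω] in
theorem zero_ne (hL : ST_DLIB) {D : Sec k Ω} {f : LL D}
    (hS : ¬ NumberField.Set.HasDirichletDensity (SetZ D f) 0) {c : k} (hc : c ≠ 0) :
    zero_h D f c ≠ 0 := by
  intro h
  obtain ⟨hL1, -, hL3, -⟩ := hL k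
  have hc2 : algebraMap k (LL D) c ≠ 0 := (map_ne_zero _).2 hc
  have hf : f = algebraMap k (LL D) c := by
    unfold zero_h at h
    rw [map_inv₀, ← div_eq_mul_inv, sub_eq_zero, eq_div_iff hc2, one_mul] at h
    exact h.symm
  apply hS
  refine hL1 _ _ ?_ (hL3 _ (zero_fin c hc))
  rintro v ⟨p, hp, σ, P, hfC, hO, hn⟩
  obtain ⟨h1, h2⟩ := P.base c
  have h3 : P.φ ⟨f, hfC⟩ = σ c := by
    rw [← h2]
    congr 1
    exact Subtype.ext hf
  rw [h3, ← hO c] at hn
  exact hn.ne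

theorem zero_sum (hL : ST_DLIB) (hD : ST_DEN) (hR : ST_ROOT) (hB : ST_BOT) (hC : ST_COP)
    (D : Sec k Ω) (f : LL D) (hS : ¬ NumberField.Set.HasDirichletDensity (SetZ D f) 0) (c : k)
    (hc : c ≠ 0) (a : ℕ → k)
    (ha : ∀ l : ℕ, l.Prime → ∃ g : LL D, zero_h D f c = algebraMap k (LL D) (a l) * g ^ l)
    (v₀ : Pl k) :
    Summable (fun l : {l : ℕ | l.Prime ∧ ∀ t : k, v₀.valuation k (a l * t ^ l) ≠ 1} =>
      1 / ((l : ℕ) : ℝ)) := by
  by_contra hns
  obtain ⟨hL1, hL2, hL3, -⟩ := hL k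
  have hne := zero_ne hL hS hc
  have ha0 : ∀ l : ℕ, l.Prime → a l ≠ 0 := by
    intro l hl h0
    obtain ⟨g, hg⟩ := ha l hl
    rw [h0, map_zero, zero_mul] at hg
    exact hne hg
  have key : NumberField.Set.HasDirichletDensity
      {v : Pl k | v ∈ SetZ D f ∧ v.valuation k c = 1} 0 := by
    refine hD k _ a {l : ℕ | l.Prime ∧ ∀ t : k, v₀.valuation k (a l * t ^ l) ≠ 1} ?_ hns ?_
    · rintro l ⟨hl, hl2⟩
      refine ⟨hl, ?_⟩
      intro b hb
      have hb0 : b ≠ 0 := by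
        intro h0
        rw [h0, zero_pow hl.ne_zero] at hb
        exact ha0 l hl hb.symm
      apply hl2 b⁻¹
      rw [← hb, inv_pow, mul_inv_cancel₀ (pow_ne_zero _ hb0), map_one]
    · rintro v ⟨⟨p, hp, σ, P, hf, hO, hn⟩, hvc⟩ l ⟨hl, -⟩
      obtain ⟨hh, hφ⟩ := zero_phi P hf c
      have h1 : ‖P.φ ⟨zero_h D f c, hh⟩ - 1‖ < 1 := by
        rw [hφ]
        have h2 : 1 - P.φ ⟨f, hf⟩ * σ c⁻¹ - 1 = -(P.φ ⟨f, hf⟩ * σ c⁻¹) := by ring
        have h3 : v.valuation k c⁻¹ = 1 := by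
          rw [map_inv₀, hvc, inv_one]
        rw [h2, norm_neg, norm_mul, zero_unit hO h3, mul_one]
        exact hn
      obtain ⟨b', g', h2, h3⟩ := hC k Ω D v p σ P hO ⟨zero_h D f c, hh⟩ h1 l hl.pos
      obtain ⟨g, hg⟩ := ha l hl
      have h2' : zero_h D f c = algebraMap k (LL D) b' * g' ^ l := h2
      have hg' : g' ≠ 0 := by
        intro h0
        rw [h0, zero_pow hl.ne_zero, mul_zero] at h2'
        exact hne h2'
      obtain ⟨t, ht⟩ := zero_ratio hR hB D (a l) b' g g' l hl.pos (ha0 l hl) hg'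
        (by rw [← hg, ← h2'])
      exact ⟨t, by rw [← ht]; exact h3⟩
  apply hS
  refine hL1 _ _ ?_ (hL2 _ _ key (hL3 _ (zero_fin c hc)))
  intro v hv
  by_cases h : v.valuation k c = 1
  · left
    exact ⟨hv, h⟩
  · right
    exact h

/-- The logarithm of the value of a product. -/
theorem zero_log (v : Pl k) (b t : k) (n : ℕ) (hn : 0 < n) (h : v.valuation k (b * t ^ n) = 1) :
    WithZero.log (v.valuation k b) + (n : ℤ) * WithZero.log (v.valuation k t) = 0 := by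
  rw [map_mul, map_pow] at h
  have hb : v.valuation k b ≠ 0 := by
    intro h0
    rw [h0, zero_mul] at h
    exact zero_ne_one h
  have ht : v.valuation k t ≠ 0 := by
    intro h0
    rw [h0, zero_pow hn.ne', mul_zero] at h
    exact zero_ne_one h
  have h2 := congrArg WithZero.log h
  rw [WithZero.log_mul hb (pow_ne_zero _ ht), WithZero.log_pow, WithZero.log_one, nsmul_eq_mul] at h2
  exact h2

end

theorem st_ZERO (hL : ST_DLIB) (hD : ST_DEN) (hK : Pool.Agent.Helper14.BSC.ST_KUM) (hR : ST_ROOT)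
    (hB : ST_BOT) (hV : ST_VALU) (hC : ST_COP) : ST_ZERO := by
  intro k Ω _ _ _ _ _ D f hS v₀ p _ σ P hO
  obtain ⟨u, hu⟩ := v₀.valuation_exists_uniformizer k
  have hu0 : u ≠ 0 := by
    intro h0
    rw [h0, map_zero] at hu
    exact WithZero.exp_ne_zero hu.symm
  have hex : ∀ c : k, c ≠ 0 → ∃ a : ℕ → k, ∀ l : ℕ, l.Prime →
      ∃ g : LL D, zero_h D f c = algebraMap k (LL D) (a l) * g ^ l := by
    intro c hc
    have h1 : ∀ l : ℕ, ∃ b : k, l.Prime →
        ∃ g : LL D, zero_h D f c = algebraMap k (LL D) b * g ^ l := by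
      intro l
      by_cases hl : l.Prime
      · obtain ⟨b, g, -, -, h⟩ := zero_mk hK hB D (zero_h D f c) (zero_ne hL hS hc) l hl.pos
        exact ⟨b, fun _ => ⟨g, h⟩⟩
      · exact ⟨0, fun h => absurd h hl⟩
    choose a ha using h1
    exact ⟨a, ha⟩
  have hfC : f ∈ P.C := by
    by_contra hf
    obtain ⟨a, ha⟩ := hex 1 one_ne_zero
    obtain ⟨a', ha'⟩ := hex u hu0
    have hs1 := zero_sum hL hD hR hB hC D f hS 1 one_ne_zero a ha v₀
    have hs2 := zero_sum hL hD hR hB hC D f hS u hu0 a' ha' v₀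
    refine zero_primes _ _ hs1 hs2 ?_
    intro l hl
    by_contra hcon
    rw [not_or] at hcon
    obtain ⟨hc1, hc2⟩ := hcon
    have hc1' : ∃ t : k, v₀.valuation k (a l * t ^ l) = 1 := by
      by_contra h
      exact hc1 ⟨hl, fun t ht => h ⟨t, ht⟩⟩
    have hc2' : ∃ t : k, v₀.valuation k (a' l * t ^ l) = 1 := by
      by_contra h
      exact hc2 ⟨hl, fun t ht => h ⟨t, ht⟩⟩
    obtain ⟨t, ht⟩ := hc1'
    obtain ⟨t', ht'⟩ := hc2'
    obtain ⟨hU, hφU⟩ := P.base u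
    set U : LL D := algebraMap k (LL D) u with hUdef
    have hU0 : U ≠ 0 := (map_ne_zero _).2 hu0
    have hfU : f - U ∉ P.C := by
      intro h
      apply hf
      have := add_mem h hU
      rwa [sub_add_cancel] at this
    have hfU0 : f - U ≠ 0 := by
      intro h
      rw [h] at hfU
      exact hfU (zero_mem _)
    have hinv : (f - U)⁻¹ ∈ P.C := by
      rcases P.C.mem_or_inv_mem (f - U) with h | h
      · exact absurd h hfU
      · exact h
    have hφ0 : P.φ ⟨(f - U)⁻¹, hinv⟩ = 0 := by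
      rw [P.ker]
      right
      show ((f - U)⁻¹)⁻¹ ∉ P.C
      rw [inv_inv]
      exact hfU
    have hX : 1 + (U - 1) * (f - U)⁻¹ ∈ P.C :=
      add_mem (one_mem _) (mul_mem (sub_mem hU (one_mem _)) hinv)
    have hφX : P.φ ⟨1 + (U - 1) * (f - U)⁻¹, hX⟩ = 1 := by
      have h1 : (⟨1 + (U - 1) * (f - U)⁻¹, hX⟩ : P.C)
          = 1 + ⟨U - 1, sub_mem hU (one_mem _)⟩ * ⟨(f - U)⁻¹, hinv⟩ := rfl
      rw [h1, map_add, map_mul, hφ0, mul_zero, add_zero, map_one]
    obtain ⟨g, hg⟩ := ha l hl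
    obtain ⟨g', hg'⟩ := ha' l hl
    have hne' := zero_ne hL hS hu0
    have hg'0 : g' ≠ 0 := by
      intro h0
      rw [h0, zero_pow hl.ne_zero, mul_zero] at hg'
      exact hne' hg'
    have ha'0 : a' l ≠ 0 := by
      intro h0
      rw [h0, map_zero, zero_mul] at hg'
      exact hne' hg'
    have ha'1 : algebraMap k (LL D) (a' l) ≠ 0 := (map_ne_zero _).2 ha'0
    have hXeq : 1 + (U - 1) * (f - U)⁻¹
        = algebraMap k (LL D) (a l / (a' l * u)) * (g / g') ^ l := by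
      have e1 : 1 - f = algebraMap k (LL D) (a l) * g ^ l := by
        rw [← hg]
        unfold zero_h
        rw [inv_one, map_one, mul_one]
      have e2 : U - f = U * (algebraMap k (LL D) (a' l) * g' ^ l) := by
        rw [← hg']
        unfold zero_h
        rw [map_inv₀, ← hUdef]
        field_simp
      have e3 : f - U = -(U * (algebraMap k (LL D) (a' l) * g' ^ l)) := by
        rw [← e2]
        ring
      have e4 : 1 + (U - 1) * (f - U)⁻¹ = (f - 1) * (f - U)⁻¹ := by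
        field_simp
        ring
      have e5 : f - 1 = -(algebraMap k (LL D) (a l) * g ^ l) := by
        rw [← e1]
        ring
      rw [e4, e5, e3, map_div₀, map_mul, ← hUdef, div_pow, inv_neg, neg_mul_neg]
      field_simp
    have hv1 := (hV k Ω D v₀ p σ P hO ⟨1 + (U - 1) * (f - U)⁻¹, hX⟩
      (by rw [hφX]; exact one_ne_zero)).1 (by rw [hφX, norm_one]) l hl.pos
      (a l / (a' l * u)) (g / g') hXeq
    obtain ⟨s, hs⟩ := hv1
    have hal0 : v₀.valuation k (a l) ≠ 0 := by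
      intro h0
      rw [map_mul, h0, zero_mul] at ht
      exact zero_ne_one ht
    have ha'l0 : v₀.valuation k (a' l) ≠ 0 := (Valuation.ne_zero_iff _).2 ha'0
    have huv0 : v₀.valuation k u ≠ 0 := (Valuation.ne_zero_iff _).2 hu0
    have L1 := zero_log v₀ _ _ _ hl.pos ht
    have L2 := zero_log v₀ _ _ _ hl.pos ht'
    have L3 := zero_log v₀ _ _ _ hl.pos hs
    rw [map_div₀, map_mul, WithZero.log_div hal0 (mul_ne_zero ha'l0 huv0),
      WithZero.log_mul ha'l0 huv0, hu, WithZero.log_exp] at L3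
    have hdvd : (l : ℤ) ∣ 1 := by
      refine ⟨WithZero.log (v₀.valuation k t) - WithZero.log (v₀.valuation k t')
        - WithZero.log (v₀.valuation k s), ?_⟩
      linarith
    have h2 := Int.le_of_dvd one_pos hdvd
    have h3 := hl.two_le
    omega
  refine ⟨hfC, ?_⟩
  by_contra hz
  have hσu : ‖σ u‖ < 1 := by
    rw [← hO u, hu]
    rw [← WithZero.exp_zero]
    exact WithZero.exp_lt_exp.2 (by norm_num)
  have hσu0 : σ u ≠ 0 := (map_ne_zero _).2 hu0
  obtain ⟨n, hn⟩ := exists_pow_lt_of_lt_one (norm_pos_iff.2 hz) hσu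
  obtain ⟨a, ha⟩ := hex (u ^ n) (pow_ne_zero _ hu0)
  have hs1 := zero_sum hL hD hR hB hC D f hS (u ^ n) (pow_ne_zero _ hu0) a ha v₀
  obtain ⟨hh, hφ⟩ := zero_phi P hfC (u ^ n)
  have hw : 1 < ‖P.φ ⟨f, hfC⟩ * σ (u ^ n)⁻¹‖ := by
    rw [norm_mul, map_inv₀, norm_inv, map_pow, norm_pow, ← div_eq_mul_inv,
      one_lt_div (pow_pos (norm_pos_iff.2 hσu0) n)]
    exact hn
  have hnorm : ‖P.φ ⟨zero_h D f (u ^ n), hh⟩‖ ≠ 1 := by
    intro h1
    rw [hφ] at h1
    have h2 := PadicComplex.isNonarchimedean p 1 (-(1 - P.φ ⟨f, hfC⟩ * σ (u ^ n)⁻¹))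
    rw [norm_neg, h1, norm_one, max_self] at h2
    have h3 : (1 : ℂ_[p]) + -(1 - P.φ ⟨f, hfC⟩ * σ (u ^ n)⁻¹)
        = P.φ ⟨f, hfC⟩ * σ (u ^ n)⁻¹ := by ring
    rw [h3] at h2
    exact absurd hw (not_lt.2 h2)
  have hφne : P.φ ⟨zero_h D f (u ^ n), hh⟩ ≠ 0 := by
    intro h0
    rw [hφ] at h0
    have h1 : P.φ ⟨f, hfC⟩ * σ (u ^ n)⁻¹ = 1 := (sub_eq_zero.1 h0).symm
    rw [h1, norm_one] at hw
    exact lt_irrefl _ hw
  obtain ⟨L₀, hL₀⟩ := (hV k Ω D v₀ p σ P hO ⟨zero_h D f (u ^ n), hh⟩ hφne).2 hnorm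
  have hfin : Summable (fun l : (Set.Iic L₀ : Set ℕ) => 1 / ((l : ℕ) : ℝ)) := by
    have : Finite (Set.Iic L₀ : Set ℕ) := (Set.finite_Iic L₀).to_subtype
    exact Summable.of_finite
  refine zero_primes _ _ hs1 hfin ?_
  intro l hl
  rcases le_or_gt l L₀ with h | h
  · right
    exact h
  · left
    refine ⟨hl, ?_⟩
    intro t
    obtain ⟨g, hg⟩ := ha l hl
    exact hL₀ l hl h (a l) g hg t

end Pool.Agent.Helper13.ZL
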